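import Mathlib
import Pool.Agent.K1H81.PS.Stm

/-!
# Project PS (helper81), piece S_ODDS: sufficiency of the local condition at an odd prime
-/

set_option autoImplicit false

namespace Pool.Agent.K1H69.PS

open Pool.Agent.K1H81.PS

section

variable {p : ℕ} [hp : Fact p.Prime]

/-- `1 + r` is a square if `r` has norm less than one and `p` is odd. -/
lemma isSquare_one_add (hp2 : p ≠ 2) (r : ℚ_[p]) (hr : ‖r‖ < 1) : IsSquare (1 + r) := by
  let r' : ℤ_[p] := ⟨r, hr.le⟩
  let F : Polynomial ℤ_[p] := Polynomial.X ^ 2 - Polynomial.C (1 + r')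
  have hr' : ‖r'‖ < 1 := hr
  have h1 : F.aeval (1 : ℤ_[p]) = -r' := by
    simp [F]
  have h2 : F.derivative.aeval (1 : ℤ_[p]) = 2 := by
    simp [F, one_add_one_eq_two]
  have h3 : ‖(2 : ℤ_[p])‖ = 1 := by
    have h4 : ¬ (p : ℤ) ∣ 2 := by
      intro h
      have h5 : p ∣ 2 := by exact_mod_cast h
      exact hp2 ((Nat.prime_dvd_prime_iff_eq hp.out Nat.prime_two).1 h5)
    have h5 : ¬ ‖((2 : ℤ) : ℚ_[p])‖ < 1 := by
      rw [Padic.norm_intCast_lt_one_iff]
      exact h4
    have h6 : ‖(2 : ℤ_[p])‖ = ‖((2 : ℤ) : ℚ_[p])‖ := by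
      rw [PadicInt.norm_def]
      norm_cast
    have h7 := PadicInt.norm_le_one (2 : ℤ_[p])
    rw [h6] at h7 ⊢
    exact le_antisymm h7 (not_lt.1 h5)
  obtain ⟨z, hz, -⟩ := hensels_lemma (p := p) (R := ℤ_[p]) (F := F) (a := 1) (by
    rw [h1, h2, h3, norm_neg]
    simpa using hr')
  have h8 : z ^ 2 = 1 + r' := by
    have : F.aeval z = z ^ 2 - (1 + r') := by simp [F]
    rw [this] at hz
    exact sub_eq_zero.1 hz
  refine ⟨(z : ℚ_[p]), ?_⟩
  have h9 := congrArg (fun w : ℤ_[p] => (w : ℚ_[p])) h8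
  simp only [PadicInt.coe_pow, PadicInt.coe_add, PadicInt.coe_one] at h9
  rw [← pow_two, h9]

lemma jac_eq (m : ℤ) : jacobiSym m p = quadraticChar (ZMod p) (m : ZMod p) := by
  rw [← jacobiSym.legendreSym.to_jacobiSym]
  rfl

lemma jac_congr {m n : ℤ} (h : (p : ℤ) ∣ m - n) : jacobiSym m p = jacobiSym n p := by
  rw [jac_eq, jac_eq]
  congr 1
  have := (ZMod.intCast_zmod_eq_zero_iff_dvd (m - n) p).2 h
  push_cast at this
  exact sub_eq_zero.1 this

lemma jac_cases {m : ℤ} (h : ¬ (p : ℤ) ∣ m) : jacobiSym m p = 1 ∨ jacobiSym m p = -1 := by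
  rw [jac_eq]
  apply quadraticChar_dichotomy
  intro h0
  exact h ((ZMod.intCast_zmod_eq_zero_iff_dvd m p).1 h0)

lemma nd_of_jac {m : ℤ} (h : jacobiSym m p ≠ 0) : ¬ (p : ℤ) ∣ m := by
  intro h0
  apply h
  rw [jac_eq, (ZMod.intCast_zmod_eq_zero_iff_dvd m p).2 h0]
  simp

lemma sq_int (hp2 : p ≠ 2) {m : ℤ} (h : jacobiSym m p = 1) : IsSquare (m : ℚ_[p]) := by
  have hm0 : (m : ZMod p) ≠ 0 := by
    intro h0
    rw [jac_eq, h0] at h
    simp at h
  rw [jac_eq] at h
  have h1 : IsSquare (m : ZMod p) := (quadraticChar_one_iff_isSquare hm0).1 h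
  obtain ⟨k, hk⟩ := h1
  have hk0 : k ≠ 0 := by
    rintro rfl
    exact hm0 (by rw [hk, mul_zero])
  obtain ⟨K, rfl⟩ := ZMod.intCast_surjective k
  have hKd : ¬ (p : ℤ) ∣ K := fun h => hk0 ((ZMod.intCast_zmod_eq_zero_iff_dvd K p).2 h)
  have hd : (p : ℤ) ∣ m - K * K := by
    rw [← ZMod.intCast_zmod_eq_zero_iff_dvd]
    push_cast
    rw [hk, sub_self]
  have n1 : ‖((m - K * K : ℤ) : ℚ_[p])‖ < 1 := (Padic.norm_intCast_lt_one_iff (p := p)).2 hd
  have n2 : ‖((K : ℤ) : ℚ_[p])‖ = 1 := by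
    have h5 : ¬ ‖((K : ℤ) : ℚ_[p])‖ < 1 := by
      rw [Padic.norm_intCast_lt_one_iff]
      exact hKd
    have h6 : ‖((K : ℤ) : ℚ_[p])‖ ≤ 1 := Padic.norm_int_le_one K
    exact le_antisymm h6 (not_lt.1 h5)
  have hKne : (K : ℚ_[p]) ≠ 0 := by
    intro h0
    rw [h0, norm_zero] at n2
    norm_num at n2
  have h3 := isSquare_one_add hp2 (((m - K * K : ℤ) : ℚ_[p]) / (K * K))
    (by rw [norm_div, norm_mul, n2, mul_one, div_one]; exact n1)
  have e : (m : ℚ_[p]) = (K * K) * (1 + ((m - K * K : ℤ) : ℚ_[p]) / (K * K)) := by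
    push_cast
    field_simp
    ring
  rw [e]
  exact (IsSquare.mul_self (K : ℚ_[p])).mul h3

/-- the product of two integers with the same nonzero quadratic character is a square -/
lemma sq_mul (hp2 : p ≠ 2) {m n : ℤ} (hm : ¬ (p : ℤ) ∣ m) (h : jacobiSym m p = jacobiSym n p) :
    IsSquare ((m : ℚ_[p]) * n) := by
  have := sq_int hp2 (m := m * n) (by
    rw [jacobiSym.mul_left, ← h]
    rcases jac_cases hm with h | h <;> rw [h] <;> norm_num)
  push_cast at this
  exact this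

end

section field

variable {K : Type} [Field K]

lemma sq_div {z w : K} (hw : w ≠ 0) (h : IsSquare (z * (w * w))) : IsSquare z := by
  obtain ⟨r, hr⟩ := h
  refine ⟨r / w, ?_⟩
  rw [div_mul_div_comm, eq_div_iff (mul_ne_zero hw hw), hr]

lemma Lk.congr {e1 e2 e3 u1 u2 u3 w1 w2 w3 : K} (h : Lk K e1 e2 e3 u1 u2 u3)
    (n1 : u1 ≠ 0) (n2 : u2 ≠ 0) (n3 : u3 ≠ 0)
    (h1 : IsSquare (u1 * w1)) (h2 : IsSquare (u2 * w2)) (h3 : IsSquare (u3 * w3)) :
    Lk K e1 e2 e3 w1 w2 w3 := by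
  obtain ⟨x, y, hy, hxy, s1, s2, s3⟩ := h
  refine ⟨x, y, hy, hxy, ?_, ?_, ?_⟩
  · apply sq_div n1
    rw [show (x - e1) * w1 * (u1 * u1) = ((x - e1) * u1) * (u1 * w1) by ring]
    exact s1.mul h1
  · apply sq_div n2
    rw [show (x - e2) * w2 * (u2 * u2) = ((x - e2) * u2) * (u2 * w2) by ring]
    exact s2.mul h2
  · apply sq_div n3
    rw [show (x - e3) * w3 * (u3 * u3) = ((x - e3) * u3) * (u3 * w3) by ring]
    exact s3.mul h3

/-- cyclic permutation of the roots -/
lemma Lk.rot {e1 e2 e3 u1 u2 u3 : K} (h : Lk K e3 e1 e2 u3 u1 u2) : Lk K e1 e2 e3 u1 u2 u3 := by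
  obtain ⟨x, y, hy, hxy, s1, s2, s3⟩ := h
  exact ⟨x, y, hy, by rw [hxy]; ring, s2, s3, s1⟩

/-- a point with given first coordinate -/
lemma Lk.mk' {e1 e2 e3 : K} (x : K) (h0 : (x - e1) * (x - e2) * (x - e3) ≠ 0)
    (h : IsSquare ((x - e1) * (x - e2) * (x - e3))) : Lk K e1 e2 e3 (x - e1) (x - e2) (x - e3) := by
  obtain ⟨y, hy⟩ := h
  refine ⟨x, y, ?_, by rw [hy, pow_two], ⟨_, rfl⟩, ⟨_, rfl⟩, ⟨_, rfl⟩⟩
  rintro rfl
  exact h0 (by rw [hy, mul_zero])

end field

section

variable {p : ℕ} [hp : Fact p.Prime]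

/-- among the `s² - β` there is a nonsquare if there is a nonsquare at all -/
lemma exists_s {β u : ZMod p} (hβ : β ≠ 0) (hu : ¬ IsSquare u) :
    ∃ s : ZMod p, ¬ IsSquare (s * s - β) := by
  by_contra hcon
  push Not at hcon
  have h1 : ∀ n : ℕ, IsSquare (-((n : ZMod p) * β)) := by
    intro n
    induction n with
    | zero => exact ⟨0, by simp⟩
    | succ n ih =>
      obtain ⟨r, hr⟩ := ih
      have := hcon r
      rw [← hr] at this
      rw [show (-(((n + 1 : ℕ) : ZMod p) * β)) = -((n : ZMod p) * β) - β by push_cast; ring]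
      exact this
  apply hu
  have := h1 (-(u / β)).val
  rw [ZMod.natCast_zmod_val] at this
  rw [show -(-(u / β) * β) = u by field_simp] at this
  exact this

variable {e1 e2 e3 : ℤ}

/-- the classes `(u, u, 1)`, `u` a unit -/
lemma unitClass (hT : S_TOR) (hp2 : p ≠ 2) (h12 : e1 ≠ e2) (hd : (p : ℤ) ∣ e1 - e2)
    (hβ : ¬ (p : ℤ) ∣ e1 - e3) (u : ℤ) (hu : ¬ (p : ℤ) ∣ u) :
    Lk ℚ_[p] e1 e2 e3 u u 1 := by
  have h13 : e1 ≠ e3 := by
    rintro rfl
    simp at hβ
  have hβ' : ¬ (p : ℤ) ∣ e2 - e3 := by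
    intro h
    apply hβ
    have := dvd_add hd h
    rwa [show e1 - e2 + (e2 - e3) = e1 - e3 by ring] at this
  have h23 : e2 ≠ e3 := by
    rintro rfl
    simp at hβ'
  have c12 : (e1 : ℚ_[p]) ≠ e2 := by exact_mod_cast h12
  have c13 : (e1 : ℚ_[p]) ≠ e3 := by exact_mod_cast h13
  have c23 : (e2 : ℚ_[p]) ≠ e3 := by exact_mod_cast h23
  have hu0 : (u : ℚ_[p]) ≠ 0 := by
    intro h
    apply hu
    have : u = 0 := by exact_mod_cast h
    simp [this]
  rcases jac_cases hu with h1 | h1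
  · -- squares
    have s1 := sq_int hp2 h1
    refine Lk.congr (hT p e1 e2 e3 c12 c13 c23).2 one_ne_zero one_ne_zero one_ne_zero
      (by rwa [one_mul]) (by rwa [one_mul]) (by simp)
  · have nd : ¬ (p : ℤ) ∣ -(e1 - e3) := by rwa [dvd_neg]
    rcases jac_cases nd with h2 | h2
    · -- -β is a square
      have hus : ¬ IsSquare (u : ZMod p) := by
        rw [jac_eq] at h1
        exact (quadraticChar_neg_one_iff_not_isSquare).1 h1
      have hb0 : ((e1 - e3 : ℤ) : ZMod p) ≠ 0 := by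
        intro h
        exact hβ ((ZMod.intCast_zmod_eq_zero_iff_dvd _ p).1 h)
      obtain ⟨s, hs⟩ := exists_s hb0 hus
      obtain ⟨S, rfl⟩ := ZMod.intCast_surjective s
      set t : ℤ := S * S - (e1 - e3) with ht
      have ht' : jacobiSym t p = -1 := by
        rw [jac_eq, quadraticChar_neg_one_iff_not_isSquare, ht]
        push_cast
        push_cast at hs
        exact hs
      have htn : ¬ (p : ℤ) ∣ t := nd_of_jac (by rw [ht']; norm_num)
      have hS : ¬ (p : ℤ) ∣ S := by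
        intro h
        have : jacobiSym t p = jacobiSym (-(e1 - e3)) p := by
          apply jac_congr
          rw [ht, show S * S - (e1 - e3) - -(e1 - e3) = S * S by ring]
          exact h.mul_left _
        rw [ht', h2] at this
        norm_num at this
      have ht2 : jacobiSym (t + (e1 - e2)) p = -1 := by
        rw [← ht']
        apply jac_congr
        simpa using hd
      have ht2n : ¬ (p : ℤ) ∣ t + (e1 - e2) := nd_of_jac (by rw [ht2]; norm_num)
      have hS0 : (S : ℚ_[p]) ≠ 0 := by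
        intro h
        apply hS
        have : S = 0 := by exact_mod_cast h
        simp [this]
      have ht0 : (t : ℚ_[p]) ≠ 0 := by
        intro h
        apply htn
        have : t = 0 := by exact_mod_cast h
        simp [this]
      have ht20 : ((t + (e1 - e2) : ℤ) : ℚ_[p]) ≠ 0 := by
        intro h
        apply ht2n
        have : (t + (e1 - e2)) = 0 := by exact_mod_cast h
        simp [this]
      have x1 : ((e1 + t : ℤ) : ℚ_[p]) - e1 = (t : ℤ) := by push_cast; ring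
      have x2 : ((e1 + t : ℤ) : ℚ_[p]) - e2 = (t + (e1 - e2) : ℤ) := by push_cast; ring
      have x3 : ((e1 + t : ℤ) : ℚ_[p]) - e3 = (S : ℚ_[p]) * S := by
        rw [ht]
        push_cast
        ring
      have key := Lk.mk' (K := ℚ_[p]) (e1 := (e1 : ℚ_[p])) (e2 := (e2 : ℚ_[p]))
        (e3 := (e3 : ℚ_[p])) ((e1 + t : ℤ) : ℚ_[p])
        (by
          rw [x1, x2, x3]
          exact mul_ne_zero (mul_ne_zero ht0 ht20) (mul_ne_zero hS0 hS0))
        (by
          rw [x1, x2, x3]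
          exact (sq_mul hp2 htn (by rw [ht', ht2])).mul ⟨_, rfl⟩)
      rw [x1, x2, x3] at key
      refine Lk.congr key ht0 ht20 (mul_ne_zero hS0 hS0) ?_ ?_ ?_
      · exact sq_mul hp2 htn (by rw [ht', h1])
      · exact sq_mul hp2 ht2n (by rw [ht2, h1])
      · rw [mul_one]
        exact ⟨_, rfl⟩
    · -- the torsion point e3
      have key := Lk.rot (hT p e3 e1 e2 c13.symm c23.symm c12).1
      have j2 : jacobiSym (e3 - e1) p = -1 := by
        rw [show e3 - e1 = -(e1 - e3) by ring, h2]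
      have j3 : jacobiSym (e3 - e2) p = -1 := by
        rw [← j2]
        apply jac_congr
        rw [show e3 - e2 - (e3 - e1) = e1 - e2 by ring]
        exact hd
      have n2 : ¬ (p : ℤ) ∣ e3 - e1 := nd_of_jac (by rw [j2]; norm_num)
      have n3 : ¬ (p : ℤ) ∣ e3 - e2 := nd_of_jac (by rw [j3]; norm_num)
      have z2 : ((e3 : ℚ_[p]) - e1) ≠ 0 := sub_ne_zero.2 c13.symm
      have z3 : ((e3 : ℚ_[p]) - e2) ≠ 0 := sub_ne_zero.2 c23.symm
      have q2 := sq_mul hp2 (n := u) n2 (by rw [j2, h1])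
      have q3 := sq_mul hp2 (n := u) n3 (by rw [j3, h1])
      have q4 := sq_mul hp2 (n := e3 - e2) n2 (by rw [j2, j3])
      push_cast at q2 q3 q4
      refine Lk.congr key z2 z3 (mul_ne_zero z2 z3) q2 q3 ?_
      rw [mul_one]
      exact q4

/-- the last step -/
lemma finish (hM : S_MUL) (c12 : (e1 : ℚ_[p]) ≠ e2) (c13 : (e1 : ℚ_[p]) ≠ e3)
    (c23 : (e2 : ℚ_[p]) ≠ e3) (U : ∀ u : ℤ, ¬ (p : ℤ) ∣ u → Lk ℚ_[p] e1 e2 e3 u u 1)
    {a1 a2 a3 : ℚ_[p]} (hA : Lk ℚ_[p] e1 e2 e3 a1 a2 a3) (n1 : a1 ≠ 0) (n2 : a2 ≠ 0)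
    (n3 : a3 ≠ 0) (m : ℤ) (hm : ¬ (p : ℤ) ∣ m) {d1 d2 d3 : ℤ} (hd1 : d1 ≠ 0) (hd3 : d3 ≠ 0)
    (h1 : IsSquare (a1 * m * d1)) (h3 : IsSquare (a3 * d3)) (ha : IsSquare (a1 * a2 * a3))
    (hd : IsSquare ((d1 : ℚ_[p]) * d2 * d3)) : Lk ℚ_[p] e1 e2 e3 d1 d2 d3 := by
  have hm0 : (m : ℚ_[p]) ≠ 0 := by
    intro h
    apply hm
    have : m = 0 := by exact_mod_cast h
    simp [this]
  have z1 : (d1 : ℚ_[p]) ≠ 0 := by exact_mod_cast hd1
  have z3 : (d3 : ℚ_[p]) ≠ 0 := by exact_mod_cast hd3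
  have h := hM p e1 e2 e3 a1 a2 a3 m m 1 c12 c13 c23 hA (U m hm)
  refine Lk.congr h (mul_ne_zero n1 hm0) (mul_ne_zero n2 hm0) (mul_ne_zero n3 one_ne_zero) h1 ?_ ?_
  · apply sq_div (w := a1 * a3 * d1 * d3)
      (mul_ne_zero (mul_ne_zero (mul_ne_zero n1 n3) z1) z3)
    rw [show a2 * (m : ℚ_[p]) * d2 * (a1 * a3 * d1 * d3 * (a1 * a3 * d1 * d3)) =
      (a1 * m * d1) * (a3 * d3) * (a1 * a2 * a3) * ((d1 : ℚ_[p]) * d2 * d3) by ring]
    exact ((h1.mul h3).mul ha).mul hd
  · rw [mul_one]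
    exact h3

/-- an integer is a power of `p` times a unit -/
lemma split_int (a : ℤ) (ha : a ≠ 0) : ∃ b : ℤ, ¬ (p : ℤ) ∣ b ∧ a = (p : ℤ) ^ (padicValInt p a) * b := by
  obtain ⟨b, hb⟩ := padicValInt_dvd (p := p) a
  refine ⟨b, ?_, hb⟩
  rintro ⟨c, rfl⟩
  have h : (p : ℤ) ^ (padicValInt p a + 1) ∣ a := ⟨c, by rw [pow_succ]; linear_combination hb⟩
  rw [padicValInt_dvd_iff] at h
  rcases h with h | h
  · exact ha h
  · omega

end

theorem t_ODDS : S_ODDS := by
  intro hM hT p hp e1 e2 e3 d1 d2 d3 hp2 h12 hd hβ hTri hCo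
  obtain ⟨f1, f2, f3, k, hk⟩ := hTri
  have hd1 : d1 ≠ 0 := f1.ne_zero
  have hd2 : d2 ≠ 0 := f2.ne_zero
  have hd3 : d3 ≠ 0 := f3.ne_zero
  have h13 : e1 ≠ e3 := by
    rintro rfl
    simp at hβ
  have hβ' : ¬ (p : ℤ) ∣ e2 - e3 := by
    intro h
    apply hβ
    have := dvd_add hd h
    rwa [show e1 - e2 + (e2 - e3) = e1 - e3 by ring] at this
  have h23 : e2 ≠ e3 := by
    rintro rfl
    simp at hβ'
  have c12 : (e1 : ℚ_[p]) ≠ e2 := by exact_mod_cast h12
  have c13 : (e1 : ℚ_[p]) ≠ e3 := by exact_mod_cast h13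
  have c23 : (e2 : ℚ_[p]) ≠ e3 := by exact_mod_cast h23
  have U := unitClass hT hp2 h12 hd hβ
  have hdd : IsSquare ((d1 : ℚ_[p]) * d2 * d3) := by
    refine ⟨(k : ℚ_[p]), ?_⟩
    have : ((d1 * d2 * d3 : ℤ) : ℚ_[p]) = ((k ^ 2 : ℤ) : ℚ_[p]) := by rw [hk]
    push_cast at this
    rw [this, pow_two]
  have hpz : (p : ℚ_[p]) ≠ 0 := by exact_mod_cast hp.out.ne_zero
  obtain ⟨hd3n, hC⟩ := hCo
  have hprime : Prime (p : ℤ) := Nat.prime_iff_prime_int.1 hp.out
  -- decomposition of d1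
  obtain ⟨b, hb, hdb⟩ := split_int (p := p) d1 hd1
  have hv1 : padicValInt p d1 ≤ 1 := by
    by_contra hcon
    push Not at hcon
    have : (p : ℤ) * p ∣ d1 := by
      rw [hdb]
      refine Dvd.dvd.mul_right ?_ _
      rw [← pow_two]
      exact pow_dvd_pow _ hcon
    have := f1 _ this
    exact hprime.not_isUnit this
  have hv1' : (p : ℤ) ∣ d1 ↔ padicValInt p d1 = 1 := by
    constructor
    · intro h
      have h2 : padicValInt p d1 ≠ 0 := by
        intro h0
        rw [h0] at hdb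
        apply hb
        rw [hdb] at h
        simpa using h
      omega
    · intro h
      rw [h] at hdb
      rw [hdb]
      simp
  -- the first kind
  have case1 : ¬ (p : ℤ) ∣ d1 → jacobiSym d3 p = 1 → Lk ℚ_[p] e1 e2 e3 d1 d2 d3 := by
    intro g1 g2
    refine finish hM c12 c13 c23 U (hT p e1 e2 e3 c12 c13 c23).2 one_ne_zero one_ne_zero
      one_ne_zero d1 g1 hd1 hd3 ?_ ?_ (by simp) hdd
    · rw [one_mul]
      exact ⟨_, rfl⟩
    · rw [one_mul]
      exact sq_int hp2 g2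
  -- the torsion point
  obtain ⟨δ, hδ, hδe⟩ := split_int (p := p) (e1 - e2) (sub_ne_zero.2 h12)
  have case2 : jacobiSym (e1 - e3) p = jacobiSym d3 p →
      ((p : ℤ) ∣ d1 ↔ Odd (padicValInt p (e1 - e2))) → Lk ℚ_[p] e1 e2 e3 d1 d2 d3 := by
    intro g1 g2
    have z1 : ((e1 : ℚ_[p]) - e2) ≠ 0 := sub_ne_zero.2 c12
    have z2 : ((e1 : ℚ_[p]) - e3) ≠ 0 := sub_ne_zero.2 c13
    have hm : ¬ (p : ℤ) ∣ b * δ * (e1 - e3) := by
      intro h
      rcases hprime.dvd_or_dvd h with h | h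
      · rcases hprime.dvd_or_dvd h with h | h
        · exact hb h
        · exact hδ h
      · exact hβ h
    refine finish hM c12 c13 c23 U (hT p e1 e2 e3 c12 c13 c23).1 (mul_ne_zero z1 z2) z1 z2
      (b * δ * (e1 - e3)) hm hd1 hd3 ?_ ?_ ?_ hdd
    · have hev : Even (padicValInt p (e1 - e2) + padicValInt p d1) := by
        rw [hv1'] at g2
        rcases Nat.even_or_odd (padicValInt p (e1 - e2)) with h | h
        · have : padicValInt p d1 = 0 := by
            have : ¬ padicValInt p d1 = 1 := fun h' => (Nat.not_odd_iff_even.2 h) (g2.1 h')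
            omega
          rw [this]
          exact h
        · rw [g2.2 h]
          exact h.add_odd odd_one
      obtain ⟨r, hr⟩ := hev
      have e4 : ((e1 : ℚ_[p]) - e2) = (p : ℚ_[p]) ^ (padicValInt p (e1 - e2)) * δ := by
        have : ((e1 - e2 : ℤ) : ℚ_[p]) = (((p : ℤ) ^ (padicValInt p (e1 - e2)) * δ : ℤ) : ℚ_[p]) := by
          rw [← hδe]
        push_cast at this
        exact this
      have e5 : (d1 : ℚ_[p]) = (p : ℚ_[p]) ^ (padicValInt p d1) * b := by
        have : ((d1 : ℤ) : ℚ_[p]) = (((p : ℤ) ^ (padicValInt p d1) * b : ℤ) : ℚ_[p]) := by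
          rw [← hdb]
        push_cast at this
        exact this
      refine ⟨(p : ℚ_[p]) ^ r * δ * b * (e1 - e3), ?_⟩
      have e6 : (p : ℚ_[p]) ^ (padicValInt p (e1 - e2)) * (p : ℚ_[p]) ^ (padicValInt p d1) =
          (p : ℚ_[p]) ^ r * (p : ℚ_[p]) ^ r := by
        rw [← pow_add, ← pow_add, hr]
      rw [e4, e5]
      push_cast
      linear_combination (δ ^ 2 * b ^ 2 * ((e1 : ℚ_[p]) - e3) ^ 2) * e6
    · have := sq_mul hp2 (n := d3) hβ g1
      push_cast at this
      exact this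
    · refine ⟨((e1 : ℚ_[p]) - e2) * (e1 - e3), ?_⟩
      ring
  by_cases hs : jacobiSym (e1 - e3) p = 1
  · rw [if_pos hs] at hC
    by_cases h1 : (p : ℤ) ∣ d1
    · rcases Nat.even_or_odd (padicValInt p (e1 - e2)) with h | h
      · -- x = e1 + p
        have hp2d : (p : ℤ) ^ 2 ∣ e1 - e2 := by
          rw [padicValInt_dvd_iff]
          right
          have h0 : padicValInt p (e1 - e2) ≠ 0 := by
            intro h0
            rw [h0] at hδe
            apply hδ
            rw [hδe] at hd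
            simpa using hd
          obtain ⟨r, hr⟩ := h
          omega
        obtain ⟨w, hw⟩ := hp2d
        have j1 : jacobiSym (e1 - e3 + p) p = 1 := by
          rw [← hs]
          apply jac_congr
          simp
        have q1 := sq_int hp2 j1
        have q2 : IsSquare (1 + (p : ℚ_[p]) * w) := by
          have := sq_int hp2 (m := 1 + p * w) (by
            have : jacobiSym (1 + p * w) p = jacobiSym 1 p := by
              apply jac_congr
              simp
            rw [this, jacobiSym.one_left])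
          push_cast at this
          exact this
        have q2n : (1 + (p : ℚ_[p]) * w) ≠ 0 := by
          intro h0
          have h1 : ((1 + p * w : ℤ) : ℚ_[p]) = 0 := by
            push_cast
            exact h0
          have h2 : (1 + (p : ℤ) * w) = 0 := by exact_mod_cast h1
          have : (p : ℤ) ∣ 1 := ⟨-w, by linear_combination h2⟩
          exact hprime.not_isUnit (isUnit_of_dvd_one this)
        have q1n : ((e1 - e3 + p : ℤ) : ℚ_[p]) ≠ 0 := by
          intro h0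
          have h2 : (e1 - e3 + (p : ℤ)) = 0 := by exact_mod_cast h0
          apply hβ
          exact ⟨-1, by linear_combination h2⟩
        have x1 : ((e1 : ℚ_[p]) + p) - e1 = p := by ring
        have x2 : ((e1 : ℚ_[p]) + p) - e2 = p * (1 + (p : ℚ_[p]) * w) := by
          have : ((e1 - e2 : ℤ) : ℚ_[p]) = (((p : ℤ) ^ 2 * w : ℤ) : ℚ_[p]) := by rw [hw]
          push_cast at this
          linear_combination this
        have x3 : ((e1 : ℚ_[p]) + p) - e3 = ((e1 - e3 + p : ℤ) : ℚ_[p]) := by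
          push_cast
          ring
        have key := Lk.mk' (K := ℚ_[p]) (e1 := (e1 : ℚ_[p])) (e2 := (e2 : ℚ_[p]))
          (e3 := (e3 : ℚ_[p])) ((e1 : ℚ_[p]) + p)
          (by
            rw [x1, x2, x3]
            exact mul_ne_zero (mul_ne_zero hpz (mul_ne_zero hpz q2n)) q1n)
          (by
            rw [x1, x2, x3, ← mul_assoc]
            exact ((IsSquare.mul_self (p : ℚ_[p])).mul q2).mul q1)
        rw [x1, x2, x3] at key
        refine finish hM c12 c13 c23 U key hpz (mul_ne_zero hpz q2n) q1n b hb hd1 hd3 ?_ ?_ ?_ hdd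
        · have e5 : (d1 : ℚ_[p]) = (p : ℚ_[p]) * b := by
            have : ((d1 : ℤ) : ℚ_[p]) = (((p : ℤ) ^ (padicValInt p d1) * b : ℤ) : ℚ_[p]) := by
              rw [← hdb]
            rw [hv1'.1 h1] at this
            push_cast at this
            rw [pow_one] at this
            exact this
          rw [e5]
          exact ⟨p * b, by ring⟩
        · exact q1.mul (sq_int hp2 hC)
        · rw [← mul_assoc]
          exact ((IsSquare.mul_self (p : ℚ_[p])).mul q2).mul q1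
      · exact case2 (by rw [hs, hC]) (iff_of_true h1 h)
    · exact case1 h1 hC
  · rw [if_neg hs] at hC
    have hs' : jacobiSym (e1 - e3) p = -1 := (jac_cases hβ).resolve_left hs
    rcases jac_cases hd3n with h3 | h3
    · apply case1 _ h3
      intro h
      have := (hC.1 h).2
      rw [h3] at this
      norm_num at this
    · apply case2 (by rw [hs', h3])
      rw [hC]
      simp [h3]

end Pool.Agent.K1H69.PS
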