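import Mathlib
import Pool.Agent.K1H81.PS.Stm

/-!
# Project PS (helper81), pieces S_TOR and S_REAL
-/

set_option autoImplicit false

namespace Pool.Agent.K1H69.PS

open Pool.Agent.K1H81.PS

section

variable {p : ℕ} [hp : Fact p.Prime]

/-- `1 + r` is a square if `r` is small (all primes) -/
lemma isSquare_one_add' (r : ℚ_[p]) (hr : ‖r‖ < ‖(2 : ℚ_[p])‖ ^ 2) : IsSquare (1 + r) := by
  have h20 : ‖(2 : ℚ_[p])‖ ≤ 1 := by
    have := Padic.norm_int_le_one (p := p) 2
    exact_mod_cast this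
  have hr1 : ‖r‖ ≤ 1 := by
    have : ‖(2 : ℚ_[p])‖ ^ 2 ≤ 1 := pow_le_one₀ (norm_nonneg _) h20
    linarith
  let r' : ℤ_[p] := ⟨r, hr1⟩
  let F : Polynomial ℤ_[p] := Polynomial.X ^ 2 - Polynomial.C (1 + r')
  have h1 : F.aeval (1 : ℤ_[p]) = -r' := by
    simp [F]
  have h2 : F.derivative.aeval (1 : ℤ_[p]) = 2 := by
    simp [F, one_add_one_eq_two]
  have h3 : ‖(2 : ℤ_[p])‖ = ‖(2 : ℚ_[p])‖ := by
    rw [PadicInt.norm_def]
    norm_cast
  obtain ⟨z, hz, -⟩ := hensels_lemma (p := p) (R := ℤ_[p]) (F := F) (a := 1) (by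
    rw [h1, h2, h3, norm_neg]
    exact hr)
  have h8 : z ^ 2 = 1 + r' := by
    have : F.aeval z = z ^ 2 - (1 + r') := by simp [F]
    rw [this] at hz
    exact sub_eq_zero.1 hz
  refine ⟨(z : ℚ_[p]), ?_⟩
  have h9 := congrArg (fun w : ℤ_[p] => (w : ℚ_[p])) h8
  simp only [PadicInt.coe_pow, PadicInt.coe_add, PadicInt.coe_one] at h9
  rw [← pow_two, h9]

lemma one_add_ne (r : ℚ_[p]) (hr : ‖r‖ < ‖(2 : ℚ_[p])‖ ^ 2) : 1 + r ≠ 0 := by
  intro h
  have h20 : ‖(2 : ℚ_[p])‖ ≤ 1 := by
    have := Padic.norm_int_le_one (p := p) 2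
    exact_mod_cast this
  have h1 : r = -1 := by linear_combination h
  rw [h1, norm_neg, norm_one] at hr
  have : ‖(2 : ℚ_[p])‖ ^ 2 ≤ 1 := pow_le_one₀ (norm_nonneg _) h20
  linarith

/-- there is a nonzero `q` with `z q²` small for three given `z` -/
lemma exists_small (z1 z2 z3 : ℚ_[p]) : ∃ q : ℚ_[p], q ≠ 0 ∧
    ‖z1 * (q * q)‖ < ‖(2 : ℚ_[p])‖ ^ 2 ∧ ‖z2 * (q * q)‖ < ‖(2 : ℚ_[p])‖ ^ 2 ∧
    ‖z3 * (q * q)‖ < ‖(2 : ℚ_[p])‖ ^ 2 := by
  have hpos : 0 < ‖(2 : ℚ_[p])‖ ^ 2 := by
    have : (2 : ℚ_[p]) ≠ 0 := by norm_num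
    positivity
  have hp1 : ‖(p : ℚ_[p])‖ < 1 := Padic.norm_p_lt_one
  have ht : ∀ z : ℚ_[p], ∀ᶠ n : ℕ in Filter.atTop,
      ‖z * ((p : ℚ_[p]) ^ n * (p : ℚ_[p]) ^ n)‖ < ‖(2 : ℚ_[p])‖ ^ 2 := by
    intro z
    have h1 : Filter.Tendsto (fun n : ℕ => (p : ℚ_[p]) ^ n) Filter.atTop (nhds 0) :=
      tendsto_pow_atTop_nhds_zero_of_norm_lt_one hp1
    have h2 : Filter.Tendsto (fun n : ℕ => ‖z * ((p : ℚ_[p]) ^ n * (p : ℚ_[p]) ^ n)‖)
        Filter.atTop (nhds ‖z * (0 * 0)‖) := ((h1.mul h1).const_mul z).norm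
    rw [mul_zero, mul_zero, norm_zero] at h2
    exact h2.eventually (gt_mem_nhds hpos)
  obtain ⟨n, h1, h2, h3⟩ := ((ht z1).and ((ht z2).and (ht z3))).exists
  exact ⟨(p : ℚ_[p]) ^ n, pow_ne_zero _ (by exact_mod_cast hp.out.ne_zero), h1, h2, h3⟩

end

theorem t_TOR : S_TOR := by
  intro p hp e1 e2 e3 h12 h13 h23
  constructor
  · obtain ⟨q, hq, g1, g2, -⟩ := exists_small (e1 - e3) (e1 - e2) 0
    have z1 : e1 - e2 ≠ 0 := sub_ne_zero.2 h12
    have z2 : e1 - e3 ≠ 0 := sub_ne_zero.2 h13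
    obtain ⟨s, hs⟩ := isSquare_one_add' _ g1
    obtain ⟨t, ht⟩ := isSquare_one_add' _ g2
    have ns : s ≠ 0 := by
      rintro rfl
      exact one_add_ne _ g1 (by rw [hs, mul_zero])
    have nt : t ≠ 0 := by
      rintro rfl
      exact one_add_ne _ g2 (by rw [ht, mul_zero])
    refine ⟨e1 + (e1 - e2) * (e1 - e3) * (q * q), (e1 - e2) * (e1 - e3) * q * s * t, ?_, ?_, ?_,
      ?_, ?_⟩
    · exact mul_ne_zero (mul_ne_zero (mul_ne_zero (mul_ne_zero z1 z2) hq) ns) nt
    · have e2' : e1 + (e1 - e2) * (e1 - e3) * (q * q) - e2 = (e1 - e2) * (s * s) := by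
        rw [← hs]
        ring
      have e3' : e1 + (e1 - e2) * (e1 - e3) * (q * q) - e3 = (e1 - e3) * (t * t) := by
        rw [← ht]
        ring
      rw [e2', e3']
      ring
    · exact ⟨(e1 - e2) * (e1 - e3) * q, by ring⟩
    · have e2' : e1 + (e1 - e2) * (e1 - e3) * (q * q) - e2 = (e1 - e2) * (s * s) := by
        rw [← hs]
        ring
      rw [e2']
      exact ⟨(e1 - e2) * s, by ring⟩
    · have e3' : e1 + (e1 - e2) * (e1 - e3) * (q * q) - e3 = (e1 - e3) * (t * t) := by
        rw [← ht]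
        ring
      rw [e3']
      exact ⟨(e1 - e3) * t, by ring⟩
  · obtain ⟨q, hq, g1, g2, g3⟩ := exists_small (-e1) (-e2) (-e3)
    obtain ⟨r, hr⟩ := isSquare_one_add' _ g1
    obtain ⟨s, hs⟩ := isSquare_one_add' _ g2
    obtain ⟨t, ht⟩ := isSquare_one_add' _ g3
    have nr : r ≠ 0 := by
      rintro rfl
      exact one_add_ne _ g1 (by rw [hr, mul_zero])
    have ns : s ≠ 0 := by
      rintro rfl
      exact one_add_ne _ g2 (by rw [hs, mul_zero])
    have nt : t ≠ 0 := by
      rintro rfl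
      exact one_add_ne _ g3 (by rw [ht, mul_zero])
    have x1 : 1 / (q * q) - e1 = (r / q) * (r / q) := by
      rw [div_mul_div_comm, ← hr]
      field_simp
      ring
    have x2 : 1 / (q * q) - e2 = (s / q) * (s / q) := by
      rw [div_mul_div_comm, ← hs]
      field_simp
      ring
    have x3 : 1 / (q * q) - e3 = (t / q) * (t / q) := by
      rw [div_mul_div_comm, ← ht]
      field_simp
      ring
    refine ⟨1 / (q * q), (r / q) * (s / q) * (t / q), ?_, ?_, ?_, ?_, ?_⟩
    · exact mul_ne_zero (mul_ne_zero (div_ne_zero nr hq) (div_ne_zero ns hq)) (div_ne_zero nt hq)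
    · rw [x1, x2, x3]
      ring
    · rw [x1, mul_one]
      exact ⟨_, rfl⟩
    · rw [x2, mul_one]
      exact ⟨_, rfl⟩
    · rw [x3, mul_one]
      exact ⟨_, rfl⟩

lemma mkR {e1 e2 e3 u1 u2 u3 : ℝ} (x : ℝ) (h : 0 < (x - e1) * (x - e2) * (x - e3))
    (h1 : 0 ≤ (x - e1) * u1) (h2 : 0 ≤ (x - e2) * u2) (h3 : 0 ≤ (x - e3) * u3) :
    Lk ℝ e1 e2 e3 u1 u2 u3 := by
  refine ⟨x, Real.sqrt ((x - e1) * (x - e2) * (x - e3)), ?_, ?_, ?_, ?_, ?_⟩
  · exact (Real.sqrt_pos.2 h).ne'
  · exact Real.sq_sqrt h.le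
  · exact ⟨Real.sqrt _, (Real.mul_self_sqrt h1).symm⟩
  · exact ⟨Real.sqrt _, (Real.mul_self_sqrt h2).symm⟩
  · exact ⟨Real.sqrt _, (Real.mul_self_sqrt h3).symm⟩

theorem t_REAL : S_REAL := by
  intro b c d1 d2 d3 hb hc hbc hTri
  obtain ⟨f1, f2, f3, k, hk⟩ := hTri
  have n1 : d1 ≠ 0 := f1.ne_zero
  have n2 : d2 ≠ 0 := f2.ne_zero
  have n3 : d3 ≠ 0 := f3.ne_zero
  have hkp : 0 < d1 * d2 * d3 := by
    have h0 : d1 * d2 * d3 ≠ 0 := mul_ne_zero (mul_ne_zero n1 n2) n3
    have h1 : 0 ≤ d1 * d2 * d3 := by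
      rw [hk]
      positivity
    omega
  have hkR : 0 < (d1 : ℝ) * d2 * d3 := by exact_mod_cast hkp
  have hcR : 0 < (c : ℝ) := by exact_mod_cast hc
  have m1 : (d1 : ℝ) ≠ 0 := by exact_mod_cast n1
  have m2 : (d2 : ℝ) ≠ 0 := by exact_mod_cast n2
  have m3 : (d3 : ℝ) ≠ 0 := by exact_mod_cast n3
  constructor
  · rintro ⟨x, y, hy, hxy, s1, s2, s3⟩
    have q : 0 < (x - 0) * (x - ((-b : ℤ) : ℝ)) * (x - ((16 * c : ℤ) : ℝ)) := by
      rw [← hxy]
      positivity
    have q1 := s1.nonneg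
    have q2 := s2.nonneg
    push_cast at q q1 q2
    rw [sub_zero] at q q1
    rw [sub_neg_eq_add] at q q2
    split_ifs with hbp
    · have hbR : 0 < (b : ℝ) := by exact_mod_cast hbp
      have hx : 0 < x + b := by
        by_contra hcon
        push Not at hcon
        have a1 : x < 0 := by linarith
        have a2 : x - 16 * c < 0 := by linarith
        have a3 : 0 < x * (x - 16 * c) := mul_pos_of_neg_of_neg a1 a2
        have : x * (x + b) * (x - 16 * c) ≤ 0 := by
          have : x * (x + b) * (x - 16 * c) = (x * (x - 16 * c)) * (x + b) := by ring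
          rw [this]
          exact mul_nonpos_of_nonneg_of_nonpos a3.le hcon
        linarith
      have : (0 : ℝ) < d2 := by
        have h0 : (0 : ℝ) ≤ d2 := nonneg_of_mul_nonneg_right q2 hx
        exact lt_of_le_of_ne h0 m2.symm
      exact_mod_cast this
    · have hbn : b < 0 := lt_of_le_of_ne (not_lt.1 hbp) hb
      have hbR : (b : ℝ) < 0 := by exact_mod_cast hbn
      have hx : 0 < x := by
        by_contra hcon
        push Not at hcon
        have a1 : x + b < 0 := by linarith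
        have a2 : x - 16 * c < 0 := by linarith
        have a3 : 0 < (x + b) * (x - 16 * c) := mul_pos_of_neg_of_neg a1 a2
        have : x * (x + b) * (x - 16 * c) ≤ 0 := by
          have : x * (x + b) * (x - 16 * c) = ((x + b) * (x - 16 * c)) * x := by ring
          rw [this]
          exact mul_nonpos_of_nonneg_of_nonpos a3.le hcon
        linarith
      have : (0 : ℝ) < d1 := by
        have h0 : (0 : ℝ) ≤ d1 := nonneg_of_mul_nonneg_right q1 hx
        exact lt_of_le_of_ne h0 m1.symm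
      exact_mod_cast this
  · intro h
    split_ifs at h with hbp
    · have hbR : 0 < (b : ℝ) := by exact_mod_cast hbp
      have h2R : (0 : ℝ) < d2 := by exact_mod_cast h
      rcases lt_or_gt_of_ne m1 with h1 | h1
      · -- x = -b/2
        have h3 : (d3 : ℝ) < 0 := by
          by_contra hcon
          push Not at hcon
          have : (d1 : ℝ) * d2 * d3 ≤ 0 :=
            mul_nonpos_of_nonpos_of_nonneg (mul_neg_of_neg_of_pos h1 h2R).le hcon
          linarith
        have a1 : -(b : ℝ) / 2 < 0 := by linarith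
        have a2 : 0 < -(b : ℝ) / 2 + b := by linarith
        have a3 : -(b : ℝ) / 2 - 16 * c < 0 := by linarith
        apply mkR (-(b : ℝ) / 2)
        · push_cast
          rw [sub_zero, sub_neg_eq_add]
          exact mul_pos_of_neg_of_neg (mul_neg_of_neg_of_pos a1 a2) a3
        · rw [sub_zero]
          exact (mul_pos_of_neg_of_neg a1 h1).le
        · push_cast
          rw [sub_neg_eq_add]
          exact (mul_pos a2 h2R).le
        · push_cast
          exact (mul_pos_of_neg_of_neg a3 h3).le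
      · have h3 : 0 < (d3 : ℝ) := by
          by_contra hcon
          push Not at hcon
          have : (d1 : ℝ) * d2 * d3 ≤ 0 :=
            mul_nonpos_of_nonneg_of_nonpos (mul_pos h1 h2R).le hcon
          linarith
        have a1 : (0 : ℝ) < 16 * c + 1 := by linarith
        have a2 : 0 < (16 * (c : ℝ) + 1) + b := by linarith
        have a3 : (0 : ℝ) < (16 * c + 1) - 16 * c := by linarith
        apply mkR (16 * (c : ℝ) + 1)
        · push_cast
          rw [sub_zero, sub_neg_eq_add]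
          exact mul_pos (mul_pos a1 a2) a3
        · rw [sub_zero]
          exact (mul_pos a1 h1).le
        · push_cast
          rw [sub_neg_eq_add]
          exact (mul_pos a2 h2R).le
        · push_cast
          exact (mul_pos a3 h3).le
    · have hbn : b < 0 := lt_of_le_of_ne (not_lt.1 hbp) hb
      have hbR : (b : ℝ) < 0 := by exact_mod_cast hbn
      have h1R : (0 : ℝ) < d1 := by exact_mod_cast h
      rcases lt_or_gt_of_ne m2 with h2 | h2
      · have h3 : (d3 : ℝ) < 0 := by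
          by_contra hcon
          push Not at hcon
          have : (d1 : ℝ) * d2 * d3 ≤ 0 :=
            mul_nonpos_of_nonpos_of_nonneg (mul_neg_of_pos_of_neg h1R h2).le hcon
          linarith
        obtain ⟨x, hx1, hx2⟩ := exists_between (show (0 : ℝ) < min (-(b : ℝ)) (16 * (c : ℝ)) from
          lt_min (by linarith) (by linarith))
        have a2 : x + b < 0 := by
          have := lt_of_lt_of_le hx2 (min_le_left _ _)
          linarith
        have a3 : x - 16 * c < 0 := by
          have := lt_of_lt_of_le hx2 (min_le_right _ _)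
          linarith
        apply mkR x
        · push_cast
          rw [sub_zero, sub_neg_eq_add]
          exact mul_pos_of_neg_of_neg (mul_neg_of_pos_of_neg hx1 a2) a3
        · rw [sub_zero]
          exact (mul_pos hx1 h1R).le
        · push_cast
          rw [sub_neg_eq_add]
          exact (mul_pos_of_neg_of_neg a2 h2).le
        · push_cast
          exact (mul_pos_of_neg_of_neg a3 h3).le
      · have h3 : 0 < (d3 : ℝ) := by
          by_contra hcon
          push Not at hcon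
          have : (d1 : ℝ) * d2 * d3 ≤ 0 :=
            mul_nonpos_of_nonneg_of_nonpos (mul_pos h1R h2).le hcon
          linarith
        have a1 : (0 : ℝ) < -b + 16 * c + 1 := by linarith
        have a2 : 0 < (-b + 16 * (c : ℝ) + 1) + b := by linarith
        have a3 : (0 : ℝ) < (-b + 16 * c + 1) - 16 * c := by linarith
        apply mkR (-b + 16 * (c : ℝ) + 1)
        · push_cast
          rw [sub_zero, sub_neg_eq_add]
          exact mul_pos (mul_pos a1 a2) a3
        · rw [sub_zero]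
          exact (mul_pos a1 h1R).le
        · push_cast
          rw [sub_neg_eq_add]
          exact (mul_pos a2 h2).le
        · push_cast
          exact (mul_pos a3 h3).le

end Pool.Agent.K1H69.PS
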